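import Pool.Agent.U609.WV.LieRep

/-!
# A primitive ideal of `U(W)` and of `U(Vir)` which is not the kernel of a map to `Ã_k`: negative answer
to Q2

Let `F` be an uncountable field of characteristic zero.  The homomorphism

  `t^n ∂ ↦ x^n ∂_x + 2 n x^(n-1) + y^n ∂_y - n y^(n-1)`   (and `z ↦ 0` for the Virasoro algebra)

from `U(W)` or `U(Vir)` to the Weyl algebra `F[x, x⁻¹, y, y⁻¹]⟨∂_x, ∂_y⟩` localised at both variables
(the tensor product of the modules of densities of weights `2` and `-1`) has a primitive kernel `Q`, but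
`Q` is not the kernel of any algebra homomorphism to `Ã_k = F[t, t⁻¹, ∂] ⊗ A_{k-1}`, for any `k ≥ 1`.

Idea (see `Pool/Agent/U609/WV`).
* Let `A₀` be the image.  Since `2 (1 - 2) = -1 (1 - (-1))`, iterated differences of products of three
  generators give the operators `κ ∂_y - κ_y + τκ ∂_x + 2 (τκ)_x` for every `κ ∈ (x-y)^6 F[x^±, y^±]`, `τ` the
  exchange of `x` and `y`.  As the two weights are different, commutators of these operators lead to
  functions, and in the end to all functions `(x-y)^28 g`, `g ∈ F[x^±, y^±]`.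
* Every nonzero ideal of `A₀` contains a nonzero function (commutators with functions lower the order),
  hence a power of `α = (x-y)^11`.  As `F` is uncountable and `A₀` has countable dimension, some `c - α`
  with `c ≠ 0` has no left inverse, and a simple quotient of `A₀ / A₀ (c - α)` is faithful.
* The map `ρ(g) = φ((x-y)^28 g)` given by a homomorphism `φ` with kernel `Q` satisfies
  `ρ(f) ρ(g) = ρ(f g) ρ(1)`.  With respect to a locally nilpotent derivation the degrees of the
  invertible `f` are constant, so that leading terms give such a map to the kernel of the derivation;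
  if the leading map has a relation `ρ'(f) = 0` then `ρ(f) = 0`, because of powers.  With the derivations
  `[·, t]`, `[·, s_j]`, `[·, ∂_j]` of `Ã_k` one ends in `F[t, t⁻¹]`, where dimensions give a relation.  But
  `ρ` is injective.
-/

set_option autoImplicit false

namespace Pool.Agent.Results.MP_4da284_al.TwoPointKernel

open Pool.Agent.U609
open AddMonoidAlgebra (single)

/-- `L` is the Witt algebra `W = F[t, t⁻¹] ∂`: it has a basis `e_n = t^(n+1) ∂`, `n ∈ ℤ`, with
`[e_m, e_n] = (n - m) e_{m + n}`. -/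
def IsWitt (F : Type) [Field F] (L : Type) [LieRing L] [LieAlgebra F L] : Prop :=
  ∃ e : Module.Basis ℤ F L, ∀ m n : ℤ, ⁅e m, e n⁆ = ((n - m : ℤ) : F) • e (m + n)

/-- `L` is the Virasoro algebra `Vir`: it has a basis consisting of `e_n = e (some n)`, `n ∈ ℤ`, and
`z = e none`, with `z` central and
`[e_m, e_n] = (n - m) e_{m + n} + δ_{m + n, 0} (m ^ 3 - m) / 12 z`. -/
def IsVirasoro (F : Type) [Field F] (L : Type) [LieRing L] [LieAlgebra F L] : Prop :=
  ∃ e : Module.Basis (Option ℤ) F L, (∀ x : L, ⁅e none, x⁆ = 0) ∧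
    ∀ m n : ℤ, ⁅e (some m), e (some n)⁆ = ((n - m : ℤ) : F) • e (some (m + n)) +
      (if m + n = 0 then (((m : F) ^ 3 - (m : F)) / 12) • e none else 0)

/-- A two-sided ideal `P` is primitive if it is the annihilator of a simple left module. -/
def IsPrimitive {U : Type} [Ring U] (P : TwoSidedIdeal U) : Prop :=
  ∃ (M : Type) (_ : AddCommGroup M) (_ : Module U M), IsSimpleModule U M ∧
    ∀ a : U, a ∈ P ↔ ∀ x : M, a • x = 0

/-- The `F`-linear map on a monoid algebra `F[G]` with values `g v` on the monomials `v ∈ G`. -/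
noncomputable def onMon {F : Type} [Field F] {G V : Type} [AddCommMonoid V] [Module F V]
    (g : G → V) : AddMonoidAlgebra F G →ₗ[F] V :=
  Finsupp.linearCombination F g ∘ₗ (AddMonoidAlgebra.coeffLinearEquiv F).toLinearMap

/-- `F[t, t⁻¹, s_1, …, s_m]`; the monomial `t^n s^a` is `single (n, a) 1`. -/
abbrev Pol (F : Type) [Field F] (m : ℕ) : Type := AddMonoidAlgebra F (ℤ × (Fin m →₀ ℕ))

/-- The operator of multiplication by `f`. -/
noncomputable def mul {F : Type} [Field F] {m : ℕ} (f : Pol F m) : Module.End F (Pol F m) :=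
  LinearMap.mulLeft F f

/-- The partial derivative `∂` with respect to `t`: `t^n s^a ↦ n t^(n-1) s^a`. -/
noncomputable def derT (F : Type) [Field F] (m : ℕ) : Module.End F (Pol F m) :=
  onMon fun v => single (v.1 - 1, v.2) (v.1 : F)

/-- The partial derivative `∂_j` with respect to `s_j`. -/
noncomputable def derS (F : Type) [Field F] {m : ℕ} (j : Fin m) : Module.End F (Pol F m) :=
  onMon fun v => single (v.1, v.2 - Finsupp.single j 1) (v.2 j : F)

/-- `Ã_k = F[t, t⁻¹, ∂] ⊗ A_{k-1}` for `k ≥ 1`: the algebra of operators on `F[t, t⁻¹, s_1, …, s_{k-1}]`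
generated by the multiplications by `t`, `t⁻¹` and the `s_j`, and by the partial derivatives. -/
noncomputable def Atilde (F : Type) [Field F] (k : ℕ) : Subalgebra F (Module.End F (Pol F (k - 1))) :=
  Algebra.adjoin F (({mul (single (1, 0) 1), mul (single (-1, 0) 1), derT F (k - 1)} : Set _) ∪
    Set.range (fun j : Fin (k - 1) => mul (single (0, Finsupp.single j 1) 1)) ∪
    Set.range (derS F))

/-- `F[x, x⁻¹, y, y⁻¹]`; the monomial `x^a y^b` is `single (a, b) 1`. -/
abbrev Pol₂ (F : Type) [Field F] : Type := AddMonoidAlgebra F (ℤ × ℤ)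

/-- The partial derivative with respect to `x`. -/
noncomputable def derX (F : Type) [Field F] : Module.End F (Pol₂ F) :=
  onMon fun v => single (v.1 - 1, v.2) (v.1 : F)

/-- The partial derivative with respect to `y`. -/
noncomputable def derY (F : Type) [Field F] : Module.End F (Pol₂ F) :=
  onMon fun v => single (v.1, v.2 - 1) (v.2 : F)

/-- `F[x, x⁻¹, y, y⁻¹]⟨∂_x, ∂_y⟩ = Ã_1 ⊗ Ã_1`, the second Weyl algebra localised at both variables: the
algebra of operators on `F[x, x⁻¹, y, y⁻¹]` generated by the multiplications by `x`, `x⁻¹`, `y`, `y⁻¹` and by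
the partial derivatives. -/
noncomputable def WeylTwo (F : Type) [Field F] : Subalgebra F (Module.End F (Pol₂ F)) :=
  Algebra.adjoin F {LinearMap.mulLeft F (single (1, 0) 1 : Pol₂ F),
    LinearMap.mulLeft F (single (-1, 0) 1 : Pol₂ F), LinearMap.mulLeft F (single (0, 1) 1 : Pol₂ F),
    LinearMap.mulLeft F (single (0, -1) 1 : Pol₂ F), derX F, derY F}

section
variable {F : Type} [Field F] [CharZero F]

lemma px_mem (n : ℤ) : WV.MM F (WV.px F n) ∈ WeylTwo F := by
  have hone : WV.MM F (1 : Pol₂ F) = 1 := by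
    apply LinearMap.ext; intro f; rw [WV.MM_apply, one_mul]; rfl
  have h1 : WV.MM F (WV.px F 1) ∈ WeylTwo F := Algebra.subset_adjoin (Or.inl rfl)
  have h2 : WV.MM F (WV.px F (-1)) ∈ WeylTwo F := Algebra.subset_adjoin (Or.inr (Or.inl rfl))
  induction n using Int.induction_on with
  | zero => rw [WV.px_zero, hone]; exact (WeylTwo F).one_mem
  | succ n ih => rw [WV.px_add, WV.MM_mul]; exact (WeylTwo F).mul_mem ih h1
  | pred n ih => rw [sub_eq_add_neg, WV.px_add, WV.MM_mul]; exact (WeylTwo F).mul_mem ih h2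

lemma py_mem (n : ℤ) : WV.MM F (WV.py F n) ∈ WeylTwo F := by
  have hone : WV.MM F (1 : Pol₂ F) = 1 := by
    apply LinearMap.ext; intro f; rw [WV.MM_apply, one_mul]; rfl
  have h1 : WV.MM F (WV.py F 1) ∈ WeylTwo F := Algebra.subset_adjoin (Or.inr (Or.inr (Or.inl rfl)))
  have h2 : WV.MM F (WV.py F (-1)) ∈ WeylTwo F :=
    Algebra.subset_adjoin (Or.inr (Or.inr (Or.inr (Or.inl rfl))))
  induction n using Int.induction_on with
  | zero => rw [WV.py_zero, hone]; exact (WeylTwo F).one_mem
  | succ n ih => rw [WV.py_add, WV.MM_mul]; exact (WeylTwo F).mul_mem ih h1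
  | pred n ih => rw [sub_eq_add_neg, WV.py_add, WV.MM_mul]; exact (WeylTwo F).mul_mem ih h2

lemma ee_mem (n : ℤ) : WV.ee F n ∈ WeylTwo F := by
  have h1 : WV.ee F n = (WV.MM F (WV.px F n) * derX F + (2 * (n : F)) • WV.MM F (WV.px F (n - 1))) +
      (WV.MM F (WV.py F n) * derY F - (n : F) • WV.MM F (WV.py F (n - 1))) := by
    apply LinearMap.ext
    intro f
    have h2 : WV.ee F n f = WV.XX F (WV.px F n) f + WV.YY F (WV.py F n) f := rfl
    rw [h2, WV.XX_apply, WV.YY_apply, WV.dx_px, WV.dy_py, smul_mul_assoc, smul_mul_assoc, smul_smul]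
    rfl
  rw [h1]
  have hX : derX F ∈ WeylTwo F :=
    Algebra.subset_adjoin (Or.inr (Or.inr (Or.inr (Or.inr (Or.inl rfl)))))
  have hY : derY F ∈ WeylTwo F :=
    Algebra.subset_adjoin (Or.inr (Or.inr (Or.inr (Or.inr (Or.inr rfl)))))
  exact (WeylTwo F).add_mem
    ((WeylTwo F).add_mem ((WeylTwo F).mul_mem (px_mem n) hX) ((WeylTwo F).smul_mem (px_mem _) _))
    ((WeylTwo F).sub_mem ((WeylTwo F).mul_mem (py_mem n) hY) ((WeylTwo F).smul_mem (py_mem _) _))

/-- The main part, for an algebra with a homomorphism onto `A₀`. -/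
theorem main [Uncountable F] {U : Type} [Ring U] [Algebra F U]
    (Ψ : U →ₐ[F] Module.End F (WV.LL F)) (hΨ : Ψ.range = WV.A0 F) :
    ∃ Q : TwoSidedIdeal U, IsPrimitive Q ∧
      (∃ Ψ' : U →ₐ[F] WeylTwo F, ∀ a, a ∈ Q ↔ Ψ' a = 0) ∧
      ∀ k : ℕ, 1 ≤ k → ¬ ∃ φ : U →ₐ[F] Atilde F k, ∀ a, a ∈ Q ↔ φ a = 0 := by
  have hmem : ∀ a, a ∈ TwoSidedIdeal.ker Ψ.toRingHom ↔ Ψ a = 0 := fun a =>
    TwoSidedIdeal.mem_ker _
  refine ⟨TwoSidedIdeal.ker Ψ.toRingHom, ?_, ?_, ?_⟩
  · obtain ⟨M, i1, i2, h1, h2⟩ := WV.exists_simple Ψ hΨ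
    exact ⟨M, i1, i2, h1, fun a => (hmem a).trans (h2 a)⟩
  · have h1 : ∀ a, Ψ a ∈ WeylTwo F := by
      intro a
      have h2 : Ψ a ∈ WV.A0 F := by rw [← hΨ]; exact ⟨a, rfl⟩
      have h3 : WV.A0 F ≤ WeylTwo F := by
        unfold WV.A0
        rw [Algebra.adjoin_le_iff]
        rintro _ ⟨n, rfl⟩
        exact ee_mem n
      exact h3 h2
    refine ⟨Ψ.codRestrict (WeylTwo F) h1, fun a => (hmem a).trans ⟨fun h => Subtype.ext h, fun h => ?_⟩⟩
    exact congrArg Subtype.val h
  · rintro k - ⟨φ, hφ⟩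
    exact WV.no_map Ψ hΨ (k - 1) φ (fun a => (hφ a).symm.trans (hmem a))

end

/-- Negative answer to Q2, for the Witt algebra and for the Virasoro algebra.  Over every uncountable
field of characteristic zero the enveloping algebra of `L = W` or `L = Vir` has a primitive ideal `Q`
which is the kernel of a homomorphism to the second Weyl algebra localised at both variables but is not
the kernel of a homomorphism to `Ã_k` for any `k ≥ 1`. -/
theorem result (F : Type) [Field F] [CharZero F] [Uncountable F] (L : Type) [LieRing L]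
    [LieAlgebra F L] (hL : IsWitt F L ∨ IsVirasoro F L) :
    ∃ Q : TwoSidedIdeal (UniversalEnvelopingAlgebra F L), IsPrimitive Q ∧
      (∃ Ψ : UniversalEnvelopingAlgebra F L →ₐ[F] WeylTwo F, ∀ a, a ∈ Q ↔ Ψ a = 0) ∧
      ∀ k : ℕ, 1 ≤ k →
        ¬ ∃ φ : UniversalEnvelopingAlgebra F L →ₐ[F] Atilde F k, ∀ a, a ∈ Q ↔ φ a = 0 := by
  rcases hL with ⟨e, he⟩ | ⟨e, hz, he⟩
  · obtain ⟨Ψ, -, hΨ⟩ := WV.witt_hom e he
    exact main Ψ hΨ
  · obtain ⟨Ψ, -, -, hΨ⟩ := WV.vir_hom e hz he
    exact main Ψ hΨ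

end Pool.Agent.Results.MP_4da284_al.TwoPointKernel
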